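import Pool.Agent.H7.GU.Stmts

set_option autoImplicit false

open Finset

namespace Pool.GU7

open Pool.Agent.H23.KT Pool.Agent.H46.KW Pool.KQ Pool.GT7

theorem BDA_co {V : Type} [Fintype V] [DecidableEq V] (G : SimpleGraph V) (z v : V) :
    nb G (nb G univ z) v = Pool.KR.co G v z := by
  ext y
  unfold Pool.KR.co
  simp only [mem_nb, mem_univ, true_and]
  tauto

theorem BDA_nonnb {V : Type} (G : SimpleGraph V) (S : Finset V) (y : V) :
    (nb G S y).card + (non G S y).card = S.card := by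
  classical
  unfold nb non
  convert card_filter_add_card_filter_not (s := S) (fun x => G.Adj y x)

theorem BDA_zyg (hZYG : ZYGStmt) {V : Type} [DecidableEq V] (G : SimpleGraph V) (S : Finset V)
    (p w : ℕ) (hCB : CB G S (p + 2)) (x : ℝ) (hx : (S.card : ℝ) ≤ ((p : ℝ) + 2) * x) :
    (kc G S (w + 1) : ℝ) ≤ (p + 2).choose (w + 1) * x ^ (w + 1) := by
  have h1 := hZYG G (p + 2) S hCB (w + 1)
  have h2 : (S.card : ℝ) / ((p + 2 : ℕ) : ℝ) ≤ x := by
    push_cast
    rw [div_le_iff₀ (by positivity)]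
    linarith
  have h3 : ((S.card : ℝ) / ((p + 2 : ℕ) : ℝ)) ^ (w + 1) ≤ x ^ (w + 1) :=
    pow_le_pow_left₀ (by positivity) h2 _
  exact h1.trans (mul_le_mul_of_nonneg_left h3 (by positivity))

theorem BDA_geo {V : Type} [Fintype V] [DecidableEq V] (G : SimpleGraph V) (p a : ℕ) (e C : ℝ)
    (z v y : V) (P : Fin (p + 3) → Finset V) (U : Finset V) (i : Fin (p + 3))
    (hS : Str G p a e C (nb G univ v) P U) (hy : y ∈ P i) :
    ((nb G (nb G univ z) y).card : ℝ) ≤ (nb G (nb G univ z) v).card + (nb G univ y).card -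
      ((p : ℝ) + 2) * ((1 - e - e1 p) * a) := by
  set T : Finset V := (univ.erase i).biUnion (fun l => nb G (P l) y) with hT
  have hTy : T ⊆ nb G univ y := by
    intro x hx
    obtain ⟨l, _, hl⟩ := mem_biUnion.1 hx
    rw [mem_nb] at hl ⊢
    exact ⟨mem_univ _, hl.2⟩
  have hTv : T ⊆ nb G univ v := by
    intro x hx
    obtain ⟨l, _, hl⟩ := mem_biUnion.1 hx
    rw [mem_nb] at hl
    exact (hS.cov x).2 (Or.inr ⟨l, hl.1⟩)
  have h1 : (nb G (nb G univ z) y).card ≤ (nb G (nb G univ z) v).card +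
      (nb G univ y \ nb G univ v).card := by
    refine (card_le_card ?_).trans (card_union_le _ _)
    intro x hx
    rw [mem_nb, mem_nb] at hx
    rw [mem_union, mem_sdiff, mem_nb, mem_nb, mem_nb, mem_nb]
    by_cases h : G.Adj v x
    · exact Or.inl ⟨hx.1, h⟩
    · exact Or.inr ⟨⟨mem_univ _, hx.2⟩, fun h' => h h'.2⟩
  have h2 : T.card + (nb G univ y \ nb G univ v).card ≤ (nb G univ y).card := by
    rw [← card_union_of_disjoint]
    · exact card_le_card (union_subset hTy sdiff_subset)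
    · rw [disjoint_left]
      intro x hx hx'
      exact (mem_sdiff.1 hx').2 (hTv hx)
  have h3 : T.card = ∑ l ∈ univ.erase i, (nb G (P l) y).card := by
    apply card_biUnion
    intro l _ l' _ hne
    exact disjoint_of_subset_left (nb_subset G _ _)
      (disjoint_of_subset_right (nb_subset G _ _) (hS.par.dis l l' hne))
  have h4 : ∀ l ∈ univ.erase i, (1 - e - e1 p) * a ≤ ((nb G (P l) y).card : ℝ) := by
    intro l hl
    have g1 := BDA_nonnb G (P l) y
    have g2 := hS.mis i y hy l (ne_of_mem_erase hl)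
    have g3 := hS.lo l
    have g4 : ((nb G (P l) y).card : ℝ) + (non G (P l) y).card = (P l).card := by
      exact_mod_cast g1
    linarith
  have h5 := sum_le_sum h4
  rw [sum_const, nsmul_eq_mul, card_erase_of_mem (mem_univ i), card_univ, Fintype.card_fin] at h5
  have h6 : ((p + 3 - 1 : ℕ) : ℝ) = (p : ℝ) + 2 := by
    have : p + 3 - 1 = p + 2 := by omega
    rw [this]
    push_cast
    ring
  rw [h6] at h5
  have h7 : (T.card : ℝ) = ∑ l ∈ univ.erase i, ((nb G (P l) y).card : ℝ) := by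
    rw [h3]
    push_cast
    rfl
  have h8 : ((nb G (nb G univ z) y).card : ℝ) ≤ (nb G (nb G univ z) v).card +
      (nb G univ y \ nb G univ v).card := by exact_mod_cast h1
  have h9 : (T.card : ℝ) + (nb G univ y \ nb G univ v).card ≤ (nb G univ y).card := by
    exact_mod_cast h2
  linarith

theorem BDA_thm (hSPL : SPLStmt) (hNUB : NUBStmt) (hZYG : ZYGStmt) (hTTR : TTRStmt) :
    BDAStmt := by
  classical
  intro p w r hpr
  obtain ⟨K₀, hK₀, a₁, hNU⟩ := hNUB p w r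
  have hrb := hpr.rb
  have hr2 := hpr.r2
  have hwp := hpr.wp
  set c₁ : ℝ := ((p + 2).choose (w + 1) : ℝ) with hc₁def
  have hc₁ : 0 < c₁ := by
    have : 0 < (p + 2).choose (w + 1) := Nat.choose_pos (by omega)
    rw [hc₁def]
    exact_mod_cast this
  refine ⟨c₁ * (K₀ + r) + 1, by positivity, ?_⟩
  intro δ C hδ
  refine ⟨max (max a₁ 1) (max (8 * (p + 1) * r) ⌈|C| * ((p : ℝ) + 3 + r) ^ w / δ⌉₊), ?_⟩
  intro a ha V _ _ G hG z A hA hAv
  have ha1 : a₁ ≤ a := ((le_max_left _ _).trans (le_max_left _ _)).trans ha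
  have ha2 : 1 ≤ a := ((le_max_right _ _).trans (le_max_left _ _)).trans ha
  have ha3 : 8 * (p + 1) * r ≤ a := ((le_max_left _ _).trans (le_max_right _ _)).trans ha
  have ha4 : |C| * ((p : ℝ) + 3 + r) ^ w / δ ≤ a :=
    (Nat.le_ceil _).trans (by
      exact_mod_cast ((le_max_right _ _).trans (le_max_right _ _)).trans ha)
  have haR : (1 : ℝ) ≤ a := by exact_mod_cast ha2
  set W : Finset V := nb G univ z with hW
  have hCBW : CB G W (p + 3) := hG.cb.nb (mem_univ z)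
  have hWc : W.card ≤ (p + 3) * a + r := hG.deg z
  have hnW : A.card ≤ W.card := card_le_card hA
  have hn : A.card ≤ (p + 3) * a + r := hnW.trans hWc
  obtain ⟨hN1, hN2⟩ := hNU a ha1 A.card hn
  set n : ℝ := (A.card : ℝ) with hndef
  set Δ : ℝ := (((p + 3) * a + r : ℕ) : ℝ) with hΔ
  have hΔ' : Δ = ((p : ℝ) + 3) * a + r := by
    rw [hΔ]
    push_cast
    ring
  have hn0 : 0 ≤ n := Nat.cast_nonneg _
  have hnΔ : n ≤ Δ := by
    rw [hΔ, hndef]
    exact_mod_cast hn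
  have hWA : (((W \ A).card : ℕ) : ℝ) ≤ Δ - n := by
    have h1 := card_sdiff_add_card_eq_card hA
    have h2 : ((W \ A).card : ℝ) + n = W.card := by
      rw [hndef]
      exact_mod_cast h1
    have h3 : (W.card : ℝ) ≤ Δ := by
      rw [hΔ]
      exact_mod_cast hWc
    linarith
  -- the part outside `A`
  have hKA : ((w : ℝ) + 2) * kc G (W \ A) (w + 2) ≤
      c₁ * ((Δ - n) * ((Δ - n) / ((p : ℝ) + 3)) ^ (w + 1)) := by
    have h1 := hZYG G (p + 3) (W \ A) (hCBW.mono sdiff_subset) (w + 2)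
    have h2 : ((w : ℝ) + 2) * ((p + 3).choose (w + 2) : ℝ) = ((p : ℝ) + 3) * c₁ := by
      have := Nat.add_one_mul_choose_eq (p + 2) (w + 1)
      have h3 : ((p + 2 + 1 : ℕ) : ℝ) * ((p + 2).choose (w + 1) : ℝ) =
        ((p + 2 + 1).choose (w + 1 + 1) : ℝ) * ((w + 1 + 1 : ℕ) : ℝ) := by exact_mod_cast this
      push_cast at h3
      rw [hc₁def]
      have e1 : (p + 2 + 1).choose (w + 1 + 1) = (p + 3).choose (w + 2) := rfl
      rw [e1] at h3
      linarith
    have hb : (0 : ℝ) < (p : ℝ) + 3 := by positivity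
    set y : ℝ := ((W \ A).card : ℝ) / ((p + 3 : ℕ) : ℝ) with hy
    have hy0 : 0 ≤ y := by positivity
    have hy1 : ((p : ℝ) + 3) * y = (W \ A).card := by
      rw [hy]
      push_cast
      field_simp
    have hy2 : y ≤ (Δ - n) / ((p : ℝ) + 3) := by
      rw [le_div_iff₀ hb]
      linarith
    calc ((w : ℝ) + 2) * kc G (W \ A) (w + 2)
        ≤ ((w : ℝ) + 2) * ((p + 3).choose (w + 2) * y ^ (w + 2)) :=
          mul_le_mul_of_nonneg_left h1 (by positivity)
      _ = c₁ * ((((p : ℝ) + 3) * y) * y ^ (w + 1)) := by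
          rw [← mul_assoc, h2]
          ring
      _ ≤ c₁ * ((Δ - n) * ((Δ - n) / ((p : ℝ) + 3)) ^ (w + 1)) := by
          apply mul_le_mul_of_nonneg_left _ hc₁.le
          apply mul_le_mul _ (pow_le_pow_left₀ hy0 hy2 _) (by positivity) (by linarith)
          rw [hy1]
          exact hWA
  -- the main term
  have hTT : c₁ * (((p : ℝ) + 3) * a * (a : ℝ) ^ (w + 1)) ≤
      ((w : ℝ) + 2) * (TT (p + 3) (w + 2) a r : ℝ) := by
    have h1 := (hTTR.2.2.1 (p + 3) (w + 2) a r (by omega)).1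
    have h1' : ((p + 3).choose (w + 2) : ℝ) * (a : ℝ) ^ (w + 2) ≤ (TT (p + 3) (w + 2) a r : ℝ) := by
      exact_mod_cast h1
    have h2 : ((w : ℝ) + 2) * ((p + 3).choose (w + 2) : ℝ) = ((p : ℝ) + 3) * c₁ := by
      have := Nat.add_one_mul_choose_eq (p + 2) (w + 1)
      have h3 : ((p + 2 + 1 : ℕ) : ℝ) * ((p + 2).choose (w + 1) : ℝ) =
        ((p + 2 + 1).choose (w + 1 + 1) : ℝ) * ((w + 1 + 1 : ℕ) : ℝ) := by exact_mod_cast this
      push_cast at h3
      rw [hc₁def]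
      have e1 : (p + 2 + 1).choose (w + 1 + 1) = (p + 3).choose (w + 2) := rfl
      rw [e1] at h3
      linarith
    calc c₁ * (((p : ℝ) + 3) * a * (a : ℝ) ^ (w + 1))
        = ((w : ℝ) + 2) * (((p + 3).choose (w + 2) : ℝ) * (a : ℝ) ^ (w + 2)) := by
          rw [← mul_assoc ((w : ℝ) + 2), h2]
          ring
      _ ≤ _ := mul_le_mul_of_nonneg_left h1' (by positivity)
  -- the sum over `A`
  set S1 : ℝ := ∑ v ∈ A, (kc G (nb G W v) (w + 1) : ℝ) with hS1
  have hLHS : ∑ v ∈ A, (c₁ * (a : ℝ) ^ (w + 1) - (kc G (Pool.KR.co G v z) (w + 1) : ℝ)) =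
      n * (c₁ * (a : ℝ) ^ (w + 1)) - S1 := by
    rw [sum_sub_distrib, sum_const, nsmul_eq_mul, hS1, hndef]
    congr 1
    apply sum_congr rfl
    intro v _
    rw [hW, BDA_co]
  have hm0 : m0 p ≤ ((p : ℝ) + 2) / 2 := by
    unfold m0
    have : 0 ≤ 1 / (2 * ((p : ℝ) + 1)) := by positivity
    linarith
  have hcard : ∀ v ∈ A, ((nb G W v).card : ℝ) ≤ m0 p * a := by
    intro v hv
    obtain ⟨e, P, U, _, _, _, h4⟩ := hAv v hv
    rw [hW, BDA_co]
    exact h4
  have hκ : ∀ v ∈ A, (kc G (nb G W v) (w + 1) : ℝ) ≤ c₁ * ((a : ℝ) / 2) ^ (w + 1) := by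
    intro v hv
    apply BDA_zyg hZYG G _ p w (hCBW.nb (hA hv))
    refine (hcard v hv).trans ?_
    have := mul_le_mul_of_nonneg_right hm0 (show (0 : ℝ) ≤ a by positivity)
    linarith
  have hS1le : S1 ≤ n * (c₁ * ((a : ℝ) / 2) ^ (w + 1)) := by
    have := sum_le_sum hκ
    rwa [sum_const, nsmul_eq_mul] at this
  have hS10 : 0 ≤ S1 := sum_nonneg (fun _ _ => by positivity)
  have hdf : ((w : ℝ) + 2) * df G p w r a W = ((w : ℝ) + 2) * (TT (p + 3) (w + 2) a r : ℝ) -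
      ((w : ℝ) + 2) * kc G W (w + 2) := by
    unfold df
    ring
  have hAw : (0 : ℝ) < (a : ℝ) ^ (w + 1) := by positivity
  rw [hLHS, hdf]
  rcases le_total (2 * A.card) ((p + 3) * a + r) with hcase | hcase
  · -- case 1
    obtain ⟨s1, -⟩ := hSPL G W A ∅ (A ×ˢ (W \ A)) w hA (by simp) (by
      intro v hv y hy _ hnot
      exact absurd (mem_product.2 ⟨hv, hy⟩) hnot)
    have s1' : ((w : ℝ) + 2) * kc G W (w + 2) ≤ S1 + ((w : ℝ) + 2) * kc G (W \ A) (w + 2) +
        ((w : ℝ) + 1) * S1 := by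
      rw [hS1]
      exact_mod_cast s1
    have g1 := hN1 hcase
    have g2 : ((w : ℝ) + 1) * S1 ≤ ((w : ℝ) + 1) * (n * (c₁ * ((a : ℝ) / 2) ^ (w + 1))) :=
      mul_le_mul_of_nonneg_left hS1le (by positivity)
    have g3 := mul_le_mul_of_nonneg_left g1 hc₁.le
    have g4 : 0 ≤ δ * n * (a : ℝ) ^ (w + 1) := by positivity
    have g5 : c₁ * (Δ * (a : ℝ) ^ (w + 1)) =
        c₁ * ((((p : ℝ) + 3) * a + r) * (a : ℝ) ^ (w + 1)) := by rw [hΔ']
    clear_value n Δ c₁ S1
    clear hN1 hN2 hΔ' hWA hS10 hcard hκ hLHS hdf hS1le g1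
    generalize ((Δ - n) / ((p : ℝ) + 3)) ^ (w + 1) = Q at *
    generalize ((a : ℝ) / 2) ^ (w + 1) = H at *
    generalize (a : ℝ) ^ (w + 1) = Aw at *
    generalize (TT (p + 3) (w + 2) a r : ℝ) = TTv at *
    generalize (kc G W (w + 2) : ℝ) = KW at *
    generalize (kc G (W \ A) (w + 2) : ℝ) = KA at *
    linarith
  · -- case 2
    choose! e P U hdata using hAv
    set D : Finset (V × V) := A.biUnion (fun v => (U v).image (fun y => (v, y))) with hD
    set Y : Finset V := (W \ A).filter (fun y => ∃ v ∈ A, G.Adj v y ∧ y ∉ U v) with hY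
    obtain ⟨-, s2⟩ := hSPL G W A Y D w hA (filter_subset _ _) (by
      intro v hv y hy hadj hnot
      rw [hY, mem_filter]
      refine ⟨hy, v, hv, hadj, fun hU => hnot ?_⟩
      rw [hD, mem_biUnion]
      exact ⟨v, hv, mem_image.2 ⟨y, hU, rfl⟩⟩)
    have hDc : (D.card : ℝ) ≤ n * |C| := by
      have h1 : D.card ≤ ∑ v ∈ A, (U v).card := by
        refine card_biUnion_le.trans (sum_le_sum fun v _ => card_image_le)
      have h2 : ∑ v ∈ A, ((U v).card : ℝ) ≤ ∑ v ∈ A, |C| := by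
        apply sum_le_sum
        intro v hv
        exact (hdata v hv).1.cU.trans (le_abs_self C)
      rw [sum_const, nsmul_eq_mul] at h2
      have h3 : (D.card : ℝ) ≤ ∑ v ∈ A, ((U v).card : ℝ) := by exact_mod_cast h1
      exact h3.trans h2
    have hWw : ((W.card : ℝ)) ^ w ≤ Δ ^ w := by
      apply pow_le_pow_left₀ (by positivity)
      rw [hΔ]
      exact_mod_cast hWc
    have hCΔ : |C| * Δ ^ w ≤ δ * (a : ℝ) ^ (w + 1) := by
      have h1 : Δ ≤ ((p : ℝ) + 3 + r) * a := by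
        rw [hΔ']
        have : (r : ℝ) ≤ r * a := le_mul_of_one_le_right (by positivity) haR
        linarith
      have h2 : Δ ^ w ≤ ((p : ℝ) + 3 + r) ^ w * (a : ℝ) ^ w := by
        rw [← mul_pow]
        exact pow_le_pow_left₀ (by positivity) h1 _
      have h3 : |C| * ((p : ℝ) + 3 + r) ^ w ≤ a * δ := by
        rwa [div_le_iff₀ hδ] at ha4
      calc |C| * Δ ^ w ≤ |C| * (((p : ℝ) + 3 + r) ^ w * (a : ℝ) ^ w) :=
            mul_le_mul_of_nonneg_left h2 (abs_nonneg _)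
        _ = |C| * ((p : ℝ) + 3 + r) ^ w * (a : ℝ) ^ w := by ring
        _ ≤ a * δ * (a : ℝ) ^ w := mul_le_mul_of_nonneg_right h3 (by positivity)
        _ = δ * (a : ℝ) ^ (w + 1) := by ring
    set g : ℝ := 1 / 2 - 1 / (4 * ((p : ℝ) + 1) * ((p : ℝ) + 2)) with hg
    have hYκ : ∀ y ∈ Y, (kc G (nb G W y) (w + 1) : ℝ) ≤ c₁ * (g * a) ^ (w + 1) := by
      intro y hy
      rw [hY, mem_filter] at hy
      obtain ⟨hyW, v, hv, hadj, hyU⟩ := hy
      obtain ⟨hStr, he0, he1, _⟩ := hdata v hv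
      have hyv : y ∈ nb G univ v := (mem_nb G).2 ⟨mem_univ _, hadj⟩
      rcases (hStr.cov y).1 hyv with h | ⟨i, hi⟩
      · exact absurd h hyU
      have h1 := BDA_geo G p a (e v) C z v y (P v) (U v) i hStr hi
      have h2 : ((nb G univ y).card : ℝ) ≤ Δ := by
        rw [hΔ]
        exact_mod_cast hG.deg y
      have h3 := hcard v hv
      apply BDA_zyg hZYG G _ p w (hCBW.nb (mem_sdiff.1 hyW).1)
      have h4 : ((p : ℝ) + 2) * ((1 - 2 * e1 p) * a) ≤ ((p : ℝ) + 2) * ((1 - e v - e1 p) * a) := by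
        apply mul_le_mul_of_nonneg_left _ (by positivity)
        apply mul_le_mul_of_nonneg_right _ (by positivity)
        linarith
      have h5 : ((p : ℝ) + 2) * g = m0 p + 1 + 1 / (4 * ((p : ℝ) + 1)) := by
        rw [hg]
        unfold m0
        field_simp
        ring
      have h6 : 2 * (((p : ℝ) + 2) * e1 p) ≤ 1 / (8 * ((p : ℝ) + 1)) := by
        unfold e1
        rw [show 2 * (((p : ℝ) + 2) * (1 / (16 * ((p : ℝ) + 3) ^ 3))) =
          (((p : ℝ) + 2)) / (8 * ((p : ℝ) + 3) ^ 3) by field_simp; ring]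
        rw [div_le_div_iff₀ (by positivity) (by positivity)]
        have hp0 : 0 ≤ (p : ℝ) ^ 3 + 8 * (p : ℝ) ^ 2 + 24 * p + 25 := by positivity
        have hp1 : 1 * (8 * ((p : ℝ) + 3) ^ 3) - ((p : ℝ) + 2) * (8 * ((p : ℝ) + 1)) =
          8 * ((p : ℝ) ^ 3 + 8 * (p : ℝ) ^ 2 + 24 * p + 25) := by ring
        linarith
      have h7 : (r : ℝ) ≤ 1 / (8 * ((p : ℝ) + 1)) * a := by
        have h8 : (8 : ℝ) * ((p : ℝ) + 1) * r ≤ a := by exact_mod_cast ha3
        rw [div_mul_eq_mul_div, one_mul, le_div_iff₀ (by positivity)]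
        linarith
      have h8 : 1 / (4 * ((p : ℝ) + 1)) = 2 * (1 / (8 * ((p : ℝ) + 1))) := by
        field_simp
        norm_num
      have h9 : 2 * (((p : ℝ) + 2) * e1 p) * a ≤ 1 / (8 * ((p : ℝ) + 1)) * a :=
        mul_le_mul_of_nonneg_right h6 (by positivity)
      have h10 : ((p : ℝ) + 2) * (g * a) = (m0 p + 1 + 2 * (1 / (8 * ((p : ℝ) + 1)))) * a := by
        rw [← mul_assoc, h5, h8]
      rw [h10]
      rw [hΔ'] at h2
      clear h5 h6 h8 h10
      generalize 1 / (8 * ((p : ℝ) + 1)) = q at *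
      have h11 : ((p : ℝ) + 2) * ((1 - 2 * e1 p) * a) = ((p : ℝ) + 3) * a - a -
        2 * (((p : ℝ) + 2) * e1 p) * a := by ring
      have h12 : (m0 p + 1 + 2 * q) * a = m0 p * a + a + q * a + q * a := by ring
      rw [h12]
      rw [h11] at h4
      linarith
    have hYc : (Y.card : ℝ) ≤ Δ - n := by
      refine le_trans ?_ hWA
      exact_mod_cast card_le_card (filter_subset _ _)
    have hg0 : 0 ≤ g := by
      rw [hg]
      have : 1 / (4 * ((p : ℝ) + 1) * ((p : ℝ) + 2)) ≤ 1 / 2 := by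
        apply one_div_le_one_div_of_le (by norm_num)
        have hp0 : 0 ≤ 4 * (p : ℝ) ^ 2 + 12 * p := by positivity
        have hp1 : 4 * ((p : ℝ) + 1) * ((p : ℝ) + 2) = 4 * (p : ℝ) ^ 2 + 12 * p + 8 := by ring
        linarith
      linarith
    have hYsum : ∑ y ∈ Y, (kc G (nb G W y) (w + 1) : ℝ) ≤ (Δ - n) * (c₁ * (g * a) ^ (w + 1)) := by
      have h1 := sum_le_sum hYκ
      rw [sum_const, nsmul_eq_mul] at h1
      exact h1.trans (mul_le_mul_of_nonneg_right hYc (by positivity))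
    have s2' : ((w : ℝ) + 2) * kc G W (w + 2) ≤ S1 + ((w : ℝ) + 2) * kc G (W \ A) (w + 2) +
        ∑ y ∈ Y, (kc G (nb G W y) (w + 1) : ℝ) + (D.card : ℝ) * (W.card : ℝ) ^ w := by
      rw [hS1]
      exact_mod_cast s2
    have hDW : (D.card : ℝ) * (W.card : ℝ) ^ w ≤ δ * n * (a : ℝ) ^ (w + 1) := by
      calc (D.card : ℝ) * (W.card : ℝ) ^ w ≤ (n * |C|) * Δ ^ w :=
            mul_le_mul hDc hWw (by positivity) (by positivity)
        _ = n * (|C| * Δ ^ w) := by ring
        _ ≤ n * (δ * (a : ℝ) ^ (w + 1)) := mul_le_mul_of_nonneg_left hCΔ hn0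
        _ = δ * n * (a : ℝ) ^ (w + 1) := by ring
    have g1 := hN2 hcase
    have g2 := mul_le_mul_of_nonneg_left g1 (mul_nonneg hc₁.le (sub_nonneg.2 hnΔ))
    have g3 : 0 ≤ c₁ * K₀ * (a : ℝ) ^ (w + 1) := by positivity
    have g5 : c₁ * (Δ * (a : ℝ) ^ (w + 1)) =
        c₁ * ((((p : ℝ) + 3) * a + r) * (a : ℝ) ^ (w + 1)) := by rw [hΔ']
    generalize ((Δ - n) / ((p : ℝ) + 3)) ^ (w + 1) = Q at *
    generalize (g * (a : ℝ)) ^ (w + 1) = H at *
    generalize (a : ℝ) ^ (w + 1) = Aw at *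
    generalize (∑ y ∈ Y, (kc G (nb G W y) (w + 1) : ℝ)) = SY at *
    generalize (D.card : ℝ) * (W.card : ℝ) ^ w = DW at *
    generalize (TT (p + 3) (w + 2) a r : ℝ) = TTv at *
    generalize (kc G W (w + 2) : ℝ) = KW at *
    generalize (kc G (W \ A) (w + 2) : ℝ) = KA at *
    linarith

end Pool.GU7
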